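import Mathlib
import Pool.Graph.R_pool_sql_team_39128cda.H.MP_3d980f_co.H

/-!
# Monochromatic congruent triangles in two-colourings of the plane: finite families of motions

The plane is `ℂ` and the direct motions are the maps `z ↦ u z + a` with `u` on the unit circle.
For every pair of triangles `T`, `T'` which are not two equilateral triangles with the same side
(in particular for `T = T'` not equilateral) there is a FINITE family `F` of direct motions such
that for every two-colouring and every direct motion `g` one of the triangles `g h T`, `g h T'`,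
`h ∈ F`, is monochromatic.
-/

set_option autoImplicit false

namespace Pool.Agent.Results.MP_3d980f_co.FiniteFamilies

/-- the direct motions of the plane: a rotation and a translation vector -/
abbrev Motion : Type := Circle × ℂ

/-- the motion `z ↦ u z + a` -/
def act (m : Motion) (z : ℂ) : ℂ := m.1 * z + m.2

/-- the three points have the same colour -/
def Mono (f : ℂ → Bool) (T : Fin 3 → ℂ) : Prop := f (T 0) = f (T 1) ∧ f (T 0) = f (T 2)

/-- the three distances are equal to `d` -/
def EquilateralSide (T : Fin 3 → ℂ) (d : ℝ) : Prop :=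
  dist (T 0) (T 1) = d ∧ dist (T 1) (T 2) = d ∧ dist (T 0) (T 2) = d

/-- every colouring has a monochromatic direct copy of one of the two triangles -/
lemma exists_motion (T T' : Fin 3 → ℂ) (hT : ¬ ∃ d, EquilateralSide T d ∧ EquilateralSide T' d)
    (f : ℂ → Bool) : ∃ m : Motion, Mono f (fun i => act m (T i)) ∨ Mono f (fun i => act m (T' i)) := by
  by_contra hcon
  push Not at hcon
  have key : ∀ r : ℂ × ℂ, r = (T 1 - T 0, T 2 - T 0) ∨ r = (T' 1 - T' 0, T' 2 - T' 0) →
      ∀ x u : ℂ, ‖u‖ = 1 → ¬ (f x = f (x + u * r.1) ∧ f x = f (x + u * r.2)) := by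
    intro r hr x u hu hm
    rcases hr with rfl | rfl
    · have := (hcon (⟨u, by simpa [Submonoid.unitSphere] using hu⟩, x - u * T 0)).1
      apply this
      unfold Mono act
      simp only
      have e0 : u * T 0 + (x - u * T 0) = x := by ring
      have e1 : u * T 1 + (x - u * T 0) = x + u * (T 1 - T 0) := by ring
      have e2 : u * T 2 + (x - u * T 0) = x + u * (T 2 - T 0) := by ring
      rw [e0, e1, e2]
      exact hm
    · have := (hcon (⟨u, by simpa [Submonoid.unitSphere] using hu⟩, x - u * T' 0)).2
      apply this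
      unfold Mono act
      simp only
      have e0 : u * T' 0 + (x - u * T' 0) = x := by ring
      have e1 : u * T' 1 + (x - u * T' 0) = x + u * (T' 1 - T' 0) := by ring
      have e2 : u * T' 2 + (x - u * T' 0) = x + u * (T' 2 - T' 0) := by ring
      rw [e0, e1, e2]
      exact hm
  have h1 := Pool.Agent.H.MP_3d980f_co.mainC f _ _ key
  have h2 := Pool.Agent.H.MP_3d980f_co.mainC f _ _ (fun r hr => key r hr.symm)
  simp only at h1 h2
  apply hT
  refine ⟨‖T 1 - T 0‖, ⟨?_, ?_, ?_⟩, ⟨?_, ?_, ?_⟩⟩
  · rw [dist_comm, dist_eq_norm]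
  · rw [dist_comm, dist_eq_norm, h2.2.2]
    congr 1
    ring
  · rw [dist_comm, dist_eq_norm, ← h2.2.1]
  · rw [dist_comm, dist_eq_norm, h1.1]
  · rw [dist_comm, dist_eq_norm, ← h1.1, h1.2.2]
    congr 1
    ring
  · rw [dist_comm, dist_eq_norm, ← h1.2.1, h1.1]

/-- composition of motions -/
lemma act_act (g h : Motion) (z : ℂ) : act g (act h z) = act (g.1 * h.1, g.1 * h.2 + g.2) z := by
  unfold act
  push_cast
  ring

/-- **Main theorem.** Let `T`, `T'` be two triples of points of the plane which are not both
equilateral with the same side; for instance `T = T'` not equilateral.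
There is a finite set `F` of direct motions such that for every two-colouring of the plane and every
direct motion `g` there is an `h ∈ F` for which `g h T` or `g h T'` is monochromatic. Consequently
there is a radius `R` such that for every two-colouring every closed disc of radius `R` contains a
monochromatic directly congruent copy of `T` or `T'`. -/
theorem result (T T' : Fin 3 → ℂ) (hT : ¬ ∃ d, EquilateralSide T d ∧ EquilateralSide T' d) :
    (∃ F : Finset Motion, ∀ f : ℂ → Bool, ∀ g : Motion, ∃ h ∈ F,
      Mono f (fun i => act g (act h (T i))) ∨ Mono f (fun i => act g (act h (T' i)))) ∧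
    ∃ R : ℝ, ∀ f : ℂ → Bool, ∀ z : ℂ, ∃ m : Motion,
      (∀ i, act m (T i) ∈ Metric.closedBall z R ∧ act m (T' i) ∈ Metric.closedBall z R) ∧
      (Mono f (fun i => act m (T i)) ∨ Mono f (fun i => act m (T' i))) := by
  classical
  have hF : ∃ F : Finset Motion, ∀ f : ℂ → Bool, ∃ h ∈ F,
      Mono f (fun i => act h (T i)) ∨ Mono f (fun i => act h (T' i)) := by
    have hopen : ∀ S : Fin 3 → ℂ, IsOpen {f : ℂ → Bool | Mono f S} := by
      intro S
      have e : {f : ℂ → Bool | Mono f S} =
          (fun f : ℂ → Bool => (f (S 0), f (S 1), f (S 2))) ⁻¹'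
            {t : Bool × Bool × Bool | t.1 = t.2.1 ∧ t.1 = t.2.2} := rfl
      rw [e]
      exact (isOpen_discrete _).preimage (by fun_prop)
    obtain ⟨t, ht⟩ := isCompact_univ.elim_finite_subcover
      (fun m : Motion => {f : ℂ → Bool | Mono f (fun i => act m (T i))} ∪
        {f : ℂ → Bool | Mono f (fun i => act m (T' i))})
      (fun m => (hopen _).union (hopen _))
      (fun f _ => by
        obtain ⟨m, hm⟩ := exists_motion T T' hT f
        exact Set.mem_iUnion.2 ⟨m, hm⟩)
    refine ⟨t, fun f => ?_⟩
    obtain ⟨m, hm⟩ := Set.mem_iUnion.1 (ht (Set.mem_univ f))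
    obtain ⟨hm1, hm2⟩ := Set.mem_iUnion.1 hm
    exact ⟨m, hm1, hm2⟩
  obtain ⟨F, hF⟩ := hF
  have h1 : ∀ f : ℂ → Bool, ∀ g : Motion, ∃ h ∈ F,
      Mono f (fun i => act g (act h (T i))) ∨ Mono f (fun i => act g (act h (T' i))) := by
    intro f g
    obtain ⟨h, h2, h3⟩ := hF (fun z => f (act g z))
    exact ⟨h, h2, h3⟩
  refine ⟨⟨F, h1⟩, ∑ h ∈ F, ∑ i, (‖act h (T i)‖ + ‖act h (T' i)‖), fun f z => ?_⟩
  obtain ⟨h, h2, h3⟩ := h1 f (1, z)
  refine ⟨((1 : Circle) * h.1, (1 : Circle) * h.2 + z), fun i => ?_, ?_⟩
  · have e : ∀ w : ℂ, act ((1 : Circle) * h.1, ((1 : Circle) : ℂ) * h.2 + z) w = act h w + z := by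
      intro w
      unfold act
      simp only [one_mul, Circle.coe_one]
      ring
    rw [e, e, Metric.mem_closedBall, Metric.mem_closedBall, dist_eq_norm, dist_eq_norm,
      add_sub_cancel_right, add_sub_cancel_right]
    have h4 : ∑ i, (‖act h (T i)‖ + ‖act h (T' i)‖) ≤
        ∑ h ∈ F, ∑ i, (‖act h (T i)‖ + ‖act h (T' i)‖) :=
      Finset.single_le_sum (f := fun h => ∑ i, (‖act h (T i)‖ + ‖act h (T' i)‖))
        (fun h _ => Finset.sum_nonneg fun i _ => by positivity) h2
    have h5 : ‖act h (T i)‖ + ‖act h (T' i)‖ ≤ ∑ i, (‖act h (T i)‖ + ‖act h (T' i)‖) :=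
      Finset.single_le_sum (f := fun i => ‖act h (T i)‖ + ‖act h (T' i)‖)
        (fun i _ => by positivity) (Finset.mem_univ i)
    have h6 := norm_nonneg (act h (T i))
    have h7 := norm_nonneg (act h (T' i))
    constructor <;> linarith
  · rcases h3 with h3 | h3
    · left
      simpa only [act_act] using h3
    · right
      simpa only [act_act] using h3

end Pool.Agent.Results.MP_3d980f_co.FiniteFamilies
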